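import Pool.Agent.K6.H61.ALH.FinalA

/-!
# An algebraic oracle with `FPT ≠ W[1] ⊆ M[1]`

An algebraic oracle (Aaronson and Wigderson) is an oracle `A` together with an extension of low
degree: for all fields `F i` of a family (for example all finite fields) and all numbers `m` a
polynomial in `m` variables over `F i`, of degree at most two in each variable, whose values at the
Boolean points are the values of `A` for the strings of length `m`. The algorithms may ask questions
about the values of these polynomials at arbitrary points. How the points are coded is arbitrary
(`dec`; we only assume that a question is at least as long as the number of the coordinates of the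
point). Here `x.A` is the oracle of the pair `x`, and `alg dec x` is the oracle together with its
extension.

The result `AlgebraicOracles` gives algebraic oracles with `W[1]` not contained in `M[1]`, and such
ones with `W[1] = FPT`. So neither `M[1] = W[1]` nor `M[1] ≠ W[1]` has a proof which
algebrizes. Here we show that `W[1] ≠ FPT → M[1] ≠ W[1]` has no such proof either: for every family
of fields and every coding of the points there is an algebraic oracle relative to which `W[1]` is
contained in `M[1]` although `W[1] ≠ FPT`.

* `W[1]` relative to the algebraic oracle is contained in `M[1]` relative to the algebraic oracle, in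
  the narrow form of `M[1]` where, after an fpt-reduction to a string `z` of `h k * (log |x| + 1)`
  bits, the answer is whether `false :: (z ++ u)` is in the oracle for some `u` as long as `z`.
* The complete problems of `W[1]` relative to the algebraic oracle (the `k`-step halting problems
  `kHaltS e`), the model-checking problems `sents e` for first-order sentences with atoms that ask
  short questions to the algebraic oracle (any number of quantifier alternations), and any given
  sequence `Q` of problems relative to the algebraic oracle with short questions are in `M[1]` relative
  to the oracle `A` **alone**.
* The halting problems relative to `A` alone are not in `FPT` relative to the algebraic oracle, not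
  even nonuniformly (`ParaAny`), and their `k`-th slices are not decided by algorithms which ask at most
  `(n + 2) ^ (k - 2)` questions to the algebraic oracle, even with advice `σ`.

Proof. The oracle contains for every instance `(e, x, k)` the bits of a string `z` whose status
(whether `false :: (z ++ u)` is in the oracle for some `u`) is the answer relative to the algebraic
oracle, which refers to itself at smaller lengths only. After `T` questions to the extension at most `T`
values of `A` are fixed: those at the Boolean points where every multilinear polynomial vanishes which
vanishes at the points of the questions. All other values can still be changed, simultaneously, by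
adding multiquadratic polynomials which vanish at the points of the questions. When codes `z` become
fixed they are replaced, just before, by fresh ones; so their statuses stay undetermined.
-/

set_option autoImplicit false

namespace Pool.Agent.Results.MP_ddf912_lc.AlgebraicCollapse

open Pool.Agent.NPC Pool.Agent.H620R2.Gauge Pool.Agent.TH678.SQ Pool.Agent.K6.H3.MW
  Pool.Agent.K6.H61.ALG Pool.Agent.K6.H61.ALH
open Pool.Agent.TH678.WP (ParaAny)

theorem result {ι : Type} (F : ι → Type) [∀ i, Field (F i)]
    (dec : List Bool → Quest F) (hdec : ∀ q, (dec q).m ≤ q.length)
    (Q : ℕ → Oracle → Set (List Bool × ℕ)) (h : ℕ → ℕ → ℕ)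
    (hh : ∀ e, Computable (h e)) (hQ : ∀ e, Short (h e) (Q e)) :
    ∃ x : Pair F, (∀ P, InW1 (alg dec x) P → InM1 (alg dec x) P) ∧
      (∀ e, InM1 x.A (kHaltS e (alg dec x))) ∧ (∀ e, InM1 x.A (sents e (alg dec x))) ∧
      (∀ e, InM1 x.A (Q e (alg dec x))) ∧
      ∀ e, InW1 x.A (kHaltS e x.A) ∧ ¬ ParaAny (IsP (alg dec x)) (kHaltS e x.A) ∧
        InW1 (alg dec x) (kHaltS e (alg dec x)) ∧
        ¬ ParaAny (IsP (alg dec x)) (kHaltS e (alg dec x)) ∧
        ∀ (M : Alg) (c k : ℕ) (σ : List Bool), (∀ n, M.p.eval n ≤ (n + 2) ^ c) → c + 2 ≤ k →
          ∃ y : List Bool,
            ¬ ((y, k) ∈ kHaltS e x.A ↔ M.out (alg dec x) (pairBits σ y) = some [true]) ∧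
            ((y, k) ∈ kHaltS e x.A ↔ (y, k) ∈ kHaltS e (alg dec x)) :=
  mainA dec hdec Q h hh hQ

end Pool.Agent.Results.MP_ddf912_lc.AlgebraicCollapse
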