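import Pool.Agent.K6.H61.ALG.Final
import Pool.Agent.K6.H61.ALG.Coll
import Pool.Agent.K6.H3.MW.Final

/-!
# The question `M[1] = W[1]` does not algebrize

An algebraic oracle (Aaronson and Wigderson) is an oracle `A` together with an extension of low
degree: for all fields `F i` of a countable family (for example all finite fields; infinite fields
are allowed too) and all numbers `m` a polynomial in `m` variables over `F i`, of degree at most two
in each variable, whose values at the Boolean points are the values of `A` for the strings of length
`m`. The algorithms may ask questions about the values of these polynomials at arbitrary points. How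
the points are coded is arbitrary (`dec`). The further oracle `E` is arbitrary as well.

* No proof of `M[1] = W[1]` algebrizes: for all pairs of an oracle `A` and an extension outside a
  set of the first category, the problem `kHaltS e` of `W[1]` relative to `A` and `E` (the `k`-step
  halting problem of nondeterministic Turing machines with short questions to `A` and `E` only)
  is not in `M[1]` relative to `A`, `E` and the extension. It has not even a compression
  (computable in time `f k * poly |x|` relative to `A`, `E` and the extension) to strings of
  `h k * |x| / (log |x|) ^ 2` bits which determine the answer.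
* No proof of `M[1] ≠ W[1]` algebrizes: if the questions are not too short, there is a pair of an
  oracle `A` and an extension such that `W[1]` relative to `A`, `E` and the extension is contained in
  `FPT` and in `M[1]` relative to `A` alone.
-/

set_option autoImplicit false

namespace Pool.Agent.Results.MP_ddf912_lc.AlgebraicOracles

open Pool.Agent.H620R2.Gauge Pool.Agent.TH678.GC Pool.Agent.TH678.SQ Pool.Agent.K6.H61.ALG
open Pool.Agent.K6.H3.MW (InW1 inW1_kHaltS)
open Pool.Agent.TH678.RS (InM1)
open Pool.Agent.TH678.WP (InFPT)

theorem result {ι : Type} [Countable ι] (F : ι → Type) [∀ i, Field (F i)]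
    (dec : List Bool → Quest F) (E : Oracle) :
    (Nonempty (Pair F) ∧ BaireSpace (Pair F)) ∧
    (∀ᶠ x in residual (Pair F), ∀ e : ℕ, InW1 (join x.A E) (kHaltS e (join x.A E)) ∧
      ¬ Comp (x.full E dec) (kHaltS e (join x.A E)) ∧
      ¬ InM1 (x.full E dec) (kHaltS e (join x.A E))) ∧
    ((∀ q, (dec q).m ≤ q.length) →
      ∃ x : Pair F, ∀ Q, InW1 (x.full E dec) Q → InFPT x.A Q ∧ InM1 x.A Q) := by
  refine ⟨⟨nonempty, baire⟩, ?_, coll E dec⟩
  filter_upwards [main E dec] with x hx e
  exact ⟨inW1_kHaltS e _, hx e, fun h => hx e (m1_comp h)⟩

end Pool.Agent.Results.MP_ddf912_lc.AlgebraicOracles
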