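import Mathlib
import Pool.Agent.K6.H3.FS.TT
import Pool.Agent.K6.H3.FS.Unsat

/-!
# `M[1] = W[1]` gives short refutations of formulas

If `W[1] ⊆ M[1]`, even nonuniformly, then for all `d` and `ε > 0` the unsatisfiable formulas with at
most `d` literals per clause in `v` variables are accepted by nondeterministic circuits of size
`2 ^ (ε v)`. So `M[1] = W[1]` (which is equivalent to the statement that ETH holds if and only if
`W[1] ≠ FPT`) refutes the nonuniform form of the nondeterministic exponential time hypothesis.

More is true. `Red s d` (starting library) is the existence of nonuniform many-one reductions of fpt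
size from the clique problem (cliques of `s k` vertices versus no clique of `k` vertices, `k` is the
parameter) to `p-log-SAT(Γ_{1,d})`. `RedTT s d r` allows truth-table reductions with
`G(k) n ^ (2 - 1 / r)` questions, `n` is the number of vertices, and arbitrary evaluation of the
answers. `Compressible s r` allows arbitrary compressions to `G(k) n ^ (2 - 1 / r)` bits. Each of
these gives nondeterministic circuits of size `F(k) n ^ c` which accept the graphs without clique of
`k` vertices and reject the graphs with a clique of `s k` vertices (`CoNondet s`), and for `s = id`
these give the nondeterministic circuits of size `2 ^ (ε v)` for unsatisfiability. The exponent `2`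
is sharp: with `n (n - 1) / 2` questions there are trivial reductions.

Proof. Many graphs with `n` vertices are packed into one graph with `N` vertices (`n ^ O(1)` for
fixed `r`, up to a factor that depends on `k`), such that every clique of it comes from one of them:
their number is larger than the number `N ^ (2 - 1 / r)` of output bits. The packing uses lines in
`(ℤ/p) ^ D` whose slopes are on a sphere (Behrend; packing lemma of Dell and van Melkebeek). By the
argument of Fortnow and Santhanam there are `n ^ 2` strings such that every graph without clique
belongs to a family of graphs without clique which is mapped to one of these strings. The circuit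
guesses the family. Formulas are mapped to graphs whose vertices are the assignments for `d + 1`
blocks of `v / K` variables.
-/

set_option autoImplicit false

namespace Pool.Agent.Results.MP_ddf912_lc.SubexponentialRefutations

open Filter Pool.Agent.W953.RD.CM Pool.Agent.K6.H3.FS

/-- (1) Compressions of the clique problem to `G(k) n ^ (2 - 1 / r)` bits give nondeterministic
circuits of fpt size for the graphs without clique. (2) So do truth-table reductions to
`p-log-SAT(Γ_{1,d})` with `G(k) n ^ (2 - 1 / r)` questions. (3) Such circuits give nondeterministic
circuits of size `2 ^ (ε v)` for unsatisfiability, for all `ε > 0`. (4) If `W[1] ⊆ M[1]`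
nonuniformly then there are nondeterministic circuits of size `2 ^ (ε v)` for unsatisfiability.
(5) There are truth-table reductions with `n (n - 1) / 2` questions. -/
theorem result :
    (∀ (s : ℕ → ℕ) (r : ℕ), 1 ≤ r → Compressible s r → CoNondet s) ∧
    (∀ (s : ℕ → ℕ) (d r : ℕ), 1 ≤ r → RedTT s d r → CoNondet s) ∧
    (CoNondet id → ∀ (d : ℕ) (ε : ℝ), 0 < ε → ∀ᶠ v : ℕ in atTop, UnsatNondet d ε v) ∧
    ((∃ d, Red id d) → ∀ (d : ℕ) (ε : ℝ), 0 < ε → ∀ᶠ v : ℕ in atTop, UnsatNondet d ε v) ∧
    (∀ n v d k : ℕ, ∃ R : TT n v d (n.choose 2), R.C.size = 0 ∧ ∀ x, R.Right k k x) := by
  have h2 : ∀ (s : ℕ → ℕ) (d r : ℕ), 1 ≤ r → RedTT s d r → CoNondet s := fun s d r hr h =>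
    coNondet_of_compressible (by omega) (compressible_of_redTT hr h)
  refine ⟨fun s r hr h => coNondet_of_compressible hr h, h2, unsat_of_coNondet, ?_, trivial_tt⟩
  rintro ⟨d, hd⟩
  exact unsat_of_coNondet (h2 id d 1 le_rfl (redTT_of_red hd))

end Pool.Agent.Results.MP_ddf912_lc.SubexponentialRefutations
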