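import Mathlib
import Pool.Agent.K6.H69.M1.Clq

/-!
# `M[1]` has no complete problem unless there are short refutations of formulas

The class `M[1]` is the union over `D` of the closures of `p-log-SAT(Γ_{1,D})` under reductions. So
`M[1]` has a complete problem if and only if for some `d` all problems `p-log-SAT(Γ_{1,D})` reduce to
`p-log-SAT(Γ_{1,d})`. In particular this holds if `M[1] = W[1]`, as `W[1]` has complete problems
(statement (4) below proves it in the nonuniform setting).

We show that already a reduction from `p-log-SAT(Γ_{1,d+4})` to `p-log-SAT(Γ_{1,d})`, even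
nonuniform, gives nondeterministic circuits of size `2 ^ (ε v)`, for every `ε > 0`, for the
unsatisfiable 3-CNF formulas in `v` variables. So if the nonuniform form of the nondeterministic
exponential time hypothesis holds then `M[1]` is the union of an infinite strictly increasing sequence
of closures of problems `p-log-SAT(Γ_{1,D})`, it has no complete problem, and this alone shows
`M[1] ≠ W[1]`.

* (1) concerns arbitrary compressions (`Compresses D e`): for `D ≥ w + e + 1`, compressions of
  `p-log-SAT(Γ_{1,D})` to `(g(k) log n) ^ e` bits give nondeterministic circuits of size `2 ^ (ε v)` for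
  the unsatisfiable formulas with at most `w` literals per clause. The trivial compression has
  `(2 k log n + 1) ^ D` bits.
* (2) concerns truth-table reductions (`TTRed D d ρ`) with `(g(k) log n) ^ ρ` questions and an
  arbitrary evaluation of the answers. So for all `d`, `ρ` the problem `p-log-SAT(Γ_{1,d})` is not
  complete for `M[1]` under such reductions, if the hypothesis holds. (By the sparsification lemma
  all problems `p-log-SAT(Γ_{1,D})` have truth-table reductions to `p-log-SAT(Γ_{1,3})` with `n ^ ε`
  questions.)
* (5) The disjunction of `v ^ r` formulas in `v` variables with at most `w` literals per clause is a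
  formula in `v + r v + r (v + 1)` variables with at most `w + r` literals per clause, whose bits are
  constants or bits of the given formulas. So `M[1]` is closed under disjunctions of `(log n) ^ r`
  instances.
* (6) If disjunctions of `t n` instances of `p-log-SAT(Γ_{1,w})` have compressions to
  `(g(k) log n) ^ e` bits, where `t` grows faster than the powers of `log n`, then there are
  nondeterministic circuits of size `2 ^ (ε v)` for unsatisfiability. (The problems in `W[1]` are
  closed under disjunctions of `n` instances.)

Proof. Fortnow and Santhanam: if `R` maps the families of `v ^ r` formulas to fewer than `v ^ r`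
bits, and families of unsatisfiable formulas and other families have different values, then there are
`O(v ^ w)` strings such that every unsatisfiable formula belongs to a family of unsatisfiable formulas
with one of these values. The circuit guesses the family. The parameter `k` is a large constant, and
`n = 2 ^ (v / K)`, so the reduction takes time `2 ^ (c v / K)`.
-/

set_option autoImplicit false

namespace Pool.Agent.Results.MP_ddf912_lc.WidthHierarchy

open Filter Pool.Agent.W953.RD.CM Pool.Agent.K6.H69.M1
open Pool.Agent.H679R2.M1 (Clause Sat)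
open Pool.Agent.K6.H3.FS (UnsatNondet)

/-- (1) Compressions of `p-log-SAT(Γ_{1,D})` to `(g(k) log n) ^ e` bits, `D ≥ w + e + 1`. (2)
Truth-table reductions from `p-log-SAT(Γ_{1,D})` to `p-log-SAT(Γ_{1,d})` with `(g(k) log n) ^ ρ`
questions, `D ≥ w + ρ + d + 1`. (3) If for some `d` all problems `p-log-SAT(Γ_{1,D})` have many-one
reductions to `p-log-SAT(Γ_{1,d})`, or one of them with `D ≥ d + 4`, then there are nondeterministic
circuits of size `2 ^ (ε v)` for unsatisfiability. (4) The hypothesis of (3) follows from
`W[1] ⊆ M[1]`. (5) Disjunctions. (6) Compressions of disjunctions of more than polylogarithmically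
many instances. -/
theorem result :
    (∀ w e D : ℕ, 3 ≤ w → w + e + 1 ≤ D → Compresses D e →
      ∀ ε : ℝ, 0 < ε → ∀ᶠ v : ℕ in atTop, UnsatNondet w ε v) ∧
    (∀ w d ρ D : ℕ, 3 ≤ w → w + ρ + d + 1 ≤ D → TTRed D d ρ →
      ∀ ε : ℝ, 0 < ε → ∀ᶠ v : ℕ in atTop, UnsatNondet w ε v) ∧
    ((∀ d D : ℕ, d + 4 ≤ D → WidthRed D d →
      ∀ ε : ℝ, 0 < ε → ∀ᶠ v : ℕ in atTop, UnsatNondet 3 ε v) ∧
      ((∃ d, ∀ D, WidthRed D d) → ∀ w : ℕ, 3 ≤ w → ∀ ε : ℝ, 0 < ε →
        ∀ᶠ v : ℕ in atTop, UnsatNondet w ε v)) ∧
    ((∃ d, Red id d) → ∃ d, ∀ D, WidthRed D d) ∧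
    (∀ r v w : ℕ, 3 ≤ w + r → ∃ src : Fin (Fintype.card (Clause (nv r v) (w + r))) →
      Bool ⊕ ((Fin r → Fin v) × Fin (Fintype.card (Clause v w))),
      ∀ y : (Fin r → Fin v) → Fin (Fintype.card (Clause v w)) → Bool,
        Sat (form (pull src y)) ↔ ∃ α, Sat (form (y α))) ∧
    (∀ (w e : ℕ) (t : ℕ → ℕ),
      (∀ M : ℕ, ∀ᶠ n : ℕ in atTop, M * (Nat.log 2 n + 1) ^ (e + 1) ≤ t n) → OrCompresses w e t →
      ∀ ε : ℝ, 0 < ε → ∀ᶠ v : ℕ in atTop, UnsatNondet w ε v) := by
  refine ⟨fun w e D h1 h2 h3 => unsat_of_compresses h1 h2 h3, fun w d ρ D h1 h2 h3 =>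
    unsat_of_compresses h1 (by omega) (compresses_of_ttRed h3), ⟨fun d D h1 h2 =>
      unsat_of_compresses le_rfl (by omega) (compresses_of_ttRed (ttRed_of_widthRed h2)), ?_⟩, ?_,
    fun r v w h3 => ⟨_, fun y => big_or le_rfl h3 y⟩, fun w e t ht h => unsat_of_orCompresses ht h⟩
  · rintro ⟨d, h⟩ w h3
    exact unsat_of_compresses h3 (by omega) (compresses_of_ttRed
      (ttRed_of_widthRed (h (w + (0 + d) + 1))))
  · rintro ⟨d, h⟩
    exact ⟨d, widthRed_of_red h⟩

end Pool.Agent.Results.MP_ddf912_lc.WidthHierarchy
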